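import Pool.Agent.H249.Pal.Prod

/-!
# Few palettes for multigraphs of bounded interval thickness or bounded arboricity

If the edges of a loopless multigraph are partitioned into classes, each of which has an interval
colouring or has an acyclic underlying simple graph, then there is a proper edge colouring with few
different palettes: at most the product of the numbers `D² - D + 2`, where `D` bounds the degrees
in the class.
-/

set_option autoImplicit false

namespace Pool.Agent.Results.MP_93b131_co.IntervalPartition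

/-- the edges of the class `i` at the vertex `v` -/
def EdgesAt {n m k : ℕ} (s t : Fin m → Fin n) (f : Fin m → Fin k) (i : Fin k) (v : Fin n) :
    Finset (Fin m) :=
  Finset.univ.filter fun e => f e = i ∧ (s e = v ∨ t e = v)

/-- The class `i` has an interval colouring `c`: at every vertex `v` the edges of the class at `v`
have different colours, and these colours are the integers `a, a + 1, ..., a + d - 1` for some `a`,
where `d` is the number of the edges of the class at `v`. -/
def HasIntervalColouring {n m k : ℕ} (s t : Fin m → Fin n) (f : Fin m → Fin k) (i : Fin k) : Prop :=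
  ∃ c : Fin m → ℕ, ∀ v : Fin n, Set.InjOn c (EdgesAt s t f i v : Set (Fin m)) ∧
    ∃ a : ℕ, (EdgesAt s t f i v).image c = Finset.Ico a (a + (EdgesAt s t f i v).card)

/-- the simple graph which underlies the class `i` -/
def Underlying {n m k : ℕ} (s t : Fin m → Fin n) (f : Fin m → Fin k) (i : Fin k) :
    SimpleGraph (Fin n) where
  Adj u v := u ≠ v ∧ ∃ e, f e = i ∧ ((s e = u ∧ t e = v) ∨ (s e = v ∧ t e = u))
  symm := ⟨fun _ _ h => ⟨h.1.symm, by
    obtain ⟨e, he, h' | h'⟩ := h.2
    · exact ⟨e, he, Or.inr h'⟩
    · exact ⟨e, he, Or.inl h'⟩⟩⟩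
  loopless := ⟨fun _ h => h.1 rfl⟩

theorem result (k n m : ℕ) (s t : Fin m → Fin n) (hst : ∀ e, s e ≠ t e) (f : Fin m → Fin k)
    (D : Fin k → ℕ) (hD : ∀ (i : Fin k) (v : Fin n), (EdgesAt s t f i v).card ≤ D i)
    (hf : ∀ i : Fin k, HasIntervalColouring s t f i ∨ (Underlying s t f i).IsAcyclic) :
    ∃ c : Fin m → ℕ,
      (∀ i j : Fin m, i ≠ j →
        (s i = s j ∨ s i = t j ∨ t i = s j ∨ t i = t j) → c i ≠ c j) ∧
      ((Finset.univ : Finset (Fin n)).image fun v =>
        (Finset.univ.filter fun i : Fin m => s i = v ∨ t i = v).image c).card ≤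
          ∏ i : Fin k, (D i * (D i - 1) + 2) := by
  have hAt : ∀ i v, Pool.Agent.H249.Pal.At s t (Pool.Agent.H249.Pal.cls f i) v =
      EdgesAt s t f i v := by
    intro i v
    ext e
    unfold Pool.Agent.H249.Pal.At Pool.Agent.H249.Pal.cls EdgesAt
    rw [Finset.mem_filter, Finset.mem_filter, Finset.mem_filter]
    constructor
    · rintro ⟨⟨h1, h2⟩, h3⟩
      exact ⟨h1, h2, h3⟩
    · rintro ⟨h1, h2, h3⟩
      exact ⟨⟨h1, h2⟩, h3⟩
  have hU : ∀ i, Pool.Agent.H249.Pal.under s t (Pool.Agent.H249.Pal.cls f i) =
      Underlying s t f i := by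
    intro i
    ext u v
    constructor
    · rintro ⟨h1, e, he, h2⟩
      exact ⟨h1, e, (Finset.mem_filter.1 he).2, h2⟩
    · rintro ⟨h1, e, he, h2⟩
      exact ⟨h1, e, Finset.mem_filter.2 ⟨Finset.mem_univ _, he⟩, h2⟩
  refine Pool.Agent.H249.Pal.few_of_interval s t f D (fun i v => ?_) fun i => ?_
  · rw [hAt]
    exact hD i v
  · rcases hf i with ⟨c, hc⟩ | h
    · refine ⟨c, fun v => ?_⟩
      rw [hAt]
      exact hc v
    · refine Pool.Agent.H249.Pal.interval_of_acyclic s t hst _ ?_
      rw [hU]
      exact h

end Pool.Agent.Results.MP_93b131_co.IntervalPartition
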