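import Pool.Agent.H249.Pal.Sub

/-!
# The palette index of a multigraph is subexponential in the maximum degree
-/

set_option autoImplicit false

namespace Pool.Agent.Results.MP_93b131_co.Subexponential

theorem result (ε : ℝ) (hε : 0 < ε) : ∃ C : ℝ, ∀ (n m : ℕ) (s t : Fin m → Fin n),
    (∀ i, s i ≠ t i) →
    ∀ Δ : ℕ, (∀ v : Fin n, (Finset.univ.filter fun i : Fin m => s i = v ∨ t i = v).card ≤ Δ) →
      ∃ c : Fin m → ℕ,
        (∀ i j : Fin m, i ≠ j →
          (s i = s j ∨ s i = t j ∨ t i = s j ∨ t i = t j) → c i ≠ c j) ∧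
        (((Finset.univ : Finset (Fin n)).image fun v =>
          (Finset.univ.filter fun i : Fin m => s i = v ∨ t i = v).image c).card : ℝ) ≤
            C * (2 : ℝ) ^ (ε * (Δ : ℝ)) := by
  obtain ⟨C, hC⟩ := Pool.Agent.H249.Pal.Rnd.finalS ε hε
  exact ⟨C, fun n m s t hst Δ hΔ => hC n m s t hst Δ hΔ⟩

end Pool.Agent.Results.MP_93b131_co.Subexponential
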